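import Pool.Agent.TH342.CV.Joint
import Pool.Agent.H370R2.DirGood
import Pool.Agent.H370R2.Expl1
import Pool.Agent.H507R3.RamAll
import Pool.Agent.V11104.Gillis

set_option autoImplicit false

/-!
# Simultaneous simple zeros of many Dirichlet L-functions at arbitrary shifts

No hypothesis is assumed.  Let `p = 3/2 - cot(1/√2)/√2 = 0.6725…` be the Montgomery-Taylor
proportion.  For a function `F` and `r > 0`, the window `(t, t + r)` is hit by `F` if it contains the
ordinate of a simple zero of `F` on the critical line.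

1. Let `k < p m` and `ε > 0`.  There is a window length `G` (in mean spacings `2π / log T`) such that
for any `m` primitive Dirichlet L-functions (equal or not), all large `T`, `T^(1-δ) ≤ H ≤ T` and all
shifts `0 ≤ a_i ≤ T^(1+δ)`: the `t ∈ (T, T + H)` for which at least `k + 1` of the windows to the right
of the points `t + a_i` are hit by their functions have proportion at least
`(p m - k) / (m - k) - ε`.

2. Let `m ≥ 0` and `ε > 0`.  There are `N` and `G` such that for any `N` primitive Dirichlet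
L-functions (equal or not), all large `T`, `T^(1-δ) ≤ H ≤ T` and all shifts `0 ≤ a_i ≤ T^(1+δ)` one can
choose a set `S` of `m` of the indices such that, for every subset `Q` of `S`, the
`t ∈ (T, T + H)` for which the windows to the right of `t + a_i` are hit for all `i ∈ Q` have
proportion at least `p^|Q| - ε`.

So for the correlations of all orders of the simple critical zeros, among any `N` shifts there are
`m` for which all the correlations are at least those of independent sets of density `p`.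

Method: the covering theorem of the starting library (`cover_shift`: for every L-function and every
shift the windows are hit for a proportion `p - ε` of the `t`), the theorem `joint` of the starting
library (not used in any starting result) for 1., and for 2. the inequality of Gillis in all orders
and Ramsey's theorem for all sizes.
-/

open Filter Topology Complex MeasureTheory

namespace Pool.Agent.Results.MP_8958e8_nt.AllOrdersAtAnyShifts

/-- the Montgomery-Taylor proportion `3/2 - cot(1/√2)/√2 = 0.6725…` -/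
noncomputable def p : ℝ := 3 / 2 - Real.cot (1 / Real.sqrt 2) / Real.sqrt 2

/-- `1/2 + i x` is a simple zero of `F` -/
def Simple (F : ℂ → ℂ) (x : ℝ) : Prop :=
  F (1 / 2 + x * I) = 0 ∧ analyticOrderNatAt F (1 / 2 + x * I) = 1

/-- the open interval `(t, t + r)` contains the ordinate of a simple zero of `F` on the critical
line -/
def Hit (F : ℂ → ℂ) (r t : ℝ) : Prop := ∃ x : ℝ, t < x ∧ x < t + r ∧ Simple F x

/-- `W = G · 2π / log T`: the length of `G` mean spacings at height `T` -/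
noncomputable def win (G T : ℝ) : ℝ := G * (2 * Real.pi / Real.log T)

lemma p_eq : p = 2 - H370.cMTinv := by
  unfold p H370.cMTinv
  ring

lemma p_num : 0.672497 ≤ p := by
  rw [p_eq]
  have := H370.Expl.cMTinv_num
  norm_num at this ⊢
  linarith

lemma p_le : p ≤ 1 := by
  rw [p_eq]
  have := H370.cMTinv_gt_one
  linarith

lemma hit_meas (F : ℂ → ℂ) (r a : ℝ) : MeasurableSet {t : ℝ | Hit F r (t + a)} :=
  (Pool.Agent.TH342.CV.hit_open F r a).measurableSet

lemma fin_aux {T H : ℝ} (S : Set ℝ) (hS : S ⊆ Set.Ioo T (T + H)) : volume S ≠ ⊤ := by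
  refine ne_top_of_le_ne_top ?_ (measure_mono hS)
  rw [Real.volume_Ioo]
  exact ENNReal.ofReal_ne_top

/-- the covering theorem -/
lemma cover (ε : ℝ) (hε : 0 < ε) : ∃ G : ℝ, 0 < G ∧ ∃ d : ℝ, 0 < d ∧ d < 1 ∧
    ∀ F : ℂ → ℂ, H370.GoodL F → ∃ T0 : ℝ, 10 ≤ T0 ∧ ∀ T : ℝ, T0 ≤ T → ∀ H : ℝ,
      T ^ (1 - d) ≤ H → H ≤ T → ∀ a : ℝ, 0 ≤ a → a ≤ T ^ (1 + d) →
      (p - ε) * H ≤ volume.real {t : ℝ | T < t ∧ t < T + H ∧ Hit F (win G T) (t + a)} := by
  obtain ⟨G, hG, d, hd0, hd1, h⟩ := Pool.Agent.TH342.CV.cover_shift hε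
  refine ⟨G, hG, d, hd0, hd1, fun F hF => ?_⟩
  obtain ⟨T0, hT0, hT⟩ := h F hF
  refine ⟨T0, hT0, fun T hTT H hH hHT a ha haT => ?_⟩
  have key := hT T hTT H hH hHT a ha haT
  rw [← p_eq] at key
  have hfin : volume {t : ℝ | T < t ∧ t < T + H ∧ Hit F (win G T) (t + a)} ≠ ⊤ :=
    fin_aux (T := T) (H := H) _ fun t ht => ⟨ht.1, ht.2.1⟩
  unfold Measure.real
  rw [← ENNReal.ofReal_le_iff_le_toReal hfin]
  refine key.trans (measure_mono ?_)
  rintro t ⟨h1, h2, x, h3, h4, -, h6⟩
  exact ⟨h1, h2, x, h3, h4, h6⟩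

/-- The Gillis inequality for subsets of an interval. -/
lemma gillis_sets (N m : ℕ) (hmN : m ≤ N) (hm : 0 < m) (ε : ℝ) (hε : (m : ℝ) ^ 2 / N ≤ ε)
    (T H : ℝ) (hH : 0 < H) (A : Fin N → Set ℝ) (hA : ∀ i, MeasurableSet (A i)) (δ : ℝ)
    (hδ : 0 ≤ δ) (hAδ : ∀ i, δ * H ≤ volume.real {t : ℝ | T < t ∧ t < T + H ∧ t ∈ A i}) :
    ∃ Q : Finset (Fin N), Q.card = m ∧
      (δ ^ m - ε) * H ≤ volume.real {t : ℝ | T < t ∧ t < T + H ∧ ∀ i ∈ Q, t ∈ A i} := by
  classical
  obtain ⟨m', rfl⟩ : ∃ m', m = m' + 1 := ⟨m - 1, by omega⟩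
  have hvol : volume (Set.Ioo T (T + H)) = ENNReal.ofReal H := by
    rw [Real.volume_Ioo]
    congr 1
    ring
  -- the integrals
  have hb : ∀ g : ℝ → ℝ, Measurable g → (∀ x, 0 ≤ g x) → (∀ x, g x ≤ 1) →
      IntegrableOn g (Set.Ioo T (T + H)) := by
    intro g hg g0 g1
    refine Measure.integrableOn_of_bounded (M := 1) ?_ hg.aestronglyMeasurable
      (Eventually.of_forall fun x => ?_)
    · rw [hvol]
      exact ENNReal.ofReal_ne_top
    · rw [Real.norm_eq_abs, abs_of_nonneg (g0 x)]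
      exact g1 x
  set f : Fin N → ℝ → ℝ := fun i => (A i).indicator 1 with hf
  have hfm : ∀ i, Measurable (f i) := fun i => measurable_one.indicator (hA i)
  have h0 : ∀ i x, 0 ≤ f i x := fun i x => Set.indicator_nonneg (fun _ _ => zero_le_one) x
  have h1 : ∀ i x, f i x ≤ 1 := fun i x => Set.indicator_le_self' (fun _ _ => zero_le_one) x
  have hprod : ∀ (t : Fin (m' + 1) → Fin N) (x : ℝ), ∏ j, f (t j) x =
      ({x : ℝ | ∀ j, x ∈ A (t j)} : Set ℝ).indicator 1 x := by
    intro t x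
    by_cases hx : ∀ j, x ∈ A (t j)
    · rw [Set.indicator_of_mem (show x ∈ {x : ℝ | ∀ j, x ∈ A (t j)} from hx)]
      refine Finset.prod_eq_one fun j _ => ?_
      simp only [hf]
      rw [Set.indicator_of_mem (hx j)]
      rfl
    · rw [Set.indicator_of_notMem (show x ∉ {x : ℝ | ∀ j, x ∈ A (t j)} from hx)]
      push Not at hx
      obtain ⟨j, hj⟩ := hx
      refine Finset.prod_eq_zero (Finset.mem_univ j) ?_
      simp only [hf]
      exact Set.indicator_of_notMem hj _
  have hAt : ∀ t : Fin (m' + 1) → Fin N, MeasurableSet {x : ℝ | ∀ j, x ∈ A (t j)} := by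
    intro t
    have : {x : ℝ | ∀ j, x ∈ A (t j)} = ⋂ j, A (t j) := by ext x; simp
    rw [this]
    exact MeasurableSet.iInter fun j => hA _
  have hI : ∀ B : Set ℝ, MeasurableSet B → ∫ x in Set.Ioo T (T + H), B.indicator (1 : ℝ → ℝ) x =
      volume.real {t : ℝ | T < t ∧ t < T + H ∧ t ∈ B} := by
    intro B hB
    rw [integral_indicator_one hB]
    unfold Measure.real
    rw [Measure.restrict_apply hB]
    congr 2
    ext x
    simp only [Set.mem_inter_iff, Set.mem_Ioo, Set.mem_ofPred_eq]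
    tauto
  have hpm : ∀ t : Fin (m' + 1) → Fin N, Measurable (fun x => ∏ j, f (t j) x) := fun t =>
    Finset.measurable_prod _ fun j _ => hfm _
  have hp : ∀ t : Fin (m' + 1) → Fin N, IntegrableOn (fun x => ∏ j, f (t j) x)
      (Set.Ioo T (T + H)) := fun t =>
    hb _ (hpm t) (fun x => Finset.prod_nonneg fun j _ => h0 _ x)
      (fun x => Finset.prod_le_one (fun j _ => h0 _ x) fun j _ => h1 _ x)
  have hfi : ∀ i, IntegrableOn (f i) (Set.Ioo T (T + H)) := fun i => hb _ (hfm i) (h0 i) (h1 i)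
  have hS : IntegrableOn (fun x => ∑ i, f i x) (Set.Ioo T (T + H)) :=
    integrable_finsetSum _ fun i _ => hfi i
  have hc : ∀ c : ℝ, IntegrableOn (fun _ : ℝ => c) (Set.Ioo T (T + H)) := fun c =>
    integrableOn_const (by rw [hvol]; exact ENNReal.ofReal_ne_top)
  have hconst : ∀ c : ℝ, ∫ _x in Set.Ioo T (T + H), c = c * H := by
    intro c
    rw [setIntegral_const]
    unfold Measure.real
    rw [hvol, ENNReal.toReal_ofReal hH.le, smul_eq_mul, mul_comm]
  have hP : IntegrableOn (fun x => ∑ t ∈ (Finset.univ : Finset (Fin (m' + 1) → Fin N)).filter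
      (fun t => Function.Injective t), ∏ j, f (t j) x) (Set.Ioo T (T + H)) :=
    integrable_finsetSum _ fun t _ => hp t
  have key : ∫ x in Set.Ioo T (T + H), (((N : ℝ) * δ) ^ (m' + 1) +
      (m' + 1) * ((N : ℝ) * δ) ^ m' * (∑ i, f i x - N * δ)) ≤
      ∫ x in Set.Ioo T (T + H), (∑ t ∈ (Finset.univ : Finset (Fin (m' + 1) → Fin N)).filter
        (fun t => Function.Injective t), ∏ j, f (t j) x +
          ((N : ℝ) ^ (m' + 1) - N.descFactorial (m' + 1))) := by
    refine integral_mono ?_ ?_ fun x => Pool.Agent.V11104.Gillis.pointwise N m' (fun i => f i x)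
      (fun i => h0 i x) (fun i => h1 i x) δ hδ
    · exact (hc _).add ((hS.sub (hc _)).const_mul _)
    · exact hP.add (hc _)
  have e1 : ∫ x in Set.Ioo T (T + H), (((N : ℝ) * δ) ^ (m' + 1) +
      (m' + 1) * ((N : ℝ) * δ) ^ m' * (∑ i, f i x - N * δ)) =
      ((N : ℝ) * δ) ^ (m' + 1) * H + (m' + 1) * ((N : ℝ) * δ) ^ m' *
        (∑ i, volume.real {t : ℝ | T < t ∧ t < T + H ∧ t ∈ A i} - N * δ * H) := by
    have hSc : IntegrableOn (fun x => ∑ i, f i x - N * δ) (Set.Ioo T (T + H)) := hS.sub (hc _)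
    have hSc2 : IntegrableOn (fun x => (m' + 1) * ((N : ℝ) * δ) ^ m' * (∑ i, f i x - N * δ))
      (Set.Ioo T (T + H)) := hSc.const_mul _
    rw [integral_add (hc _) hSc2, integral_const_mul,
      integral_sub hS (hc _), integral_finsetSum _ (fun i _ => hfi i), hconst, hconst]
    simp only [hf, hI _ (hA _)]
  have e2 : ∫ x in Set.Ioo T (T + H), (∑ t ∈ (Finset.univ : Finset (Fin (m' + 1) → Fin N)).filter
        (fun t => Function.Injective t), ∏ j, f (t j) x +
          ((N : ℝ) ^ (m' + 1) - N.descFactorial (m' + 1))) =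
      ∑ t ∈ (Finset.univ : Finset (Fin (m' + 1) → Fin N)).filter
        (fun t => Function.Injective t),
        volume.real {x : ℝ | T < x ∧ x < T + H ∧ ∀ j, x ∈ A (t j)} +
          ((N : ℝ) ^ (m' + 1) - N.descFactorial (m' + 1)) * H := by
    rw [integral_add hP (hc _), integral_finsetSum _ (fun t _ => hp t), hconst]
    congr 1
    refine Finset.sum_congr rfl fun t _ => ?_
    simp only [hprod]
    exact hI _ (hAt t)
  rw [e1, e2] at key
  obtain ⟨t, ht, hres⟩ := Pool.Agent.V11104.Gillis.choose N m' hmN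
    (fun t => volume.real {x : ℝ | T < x ∧ x < T + H ∧ ∀ j, x ∈ A (t j)} / H) δ ε
    (by push_cast at hε; exact hε) (fun t => div_nonneg measureReal_nonneg hH.le) (by
      have h2 : (N : ℝ) * δ * H ≤ ∑ i, volume.real {t : ℝ | T < t ∧ t < T + H ∧ t ∈ A i} := by
        have h3 : ∑ _i : Fin N, δ * H ≤ ∑ i, volume.real {t : ℝ | T < t ∧ t < T + H ∧ t ∈ A i} :=
          Finset.sum_le_sum fun i _ => hAδ i
        rw [Finset.sum_const, Finset.card_univ, Fintype.card_fin, nsmul_eq_mul] at h3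
        linarith
      have h4 : 0 ≤ ((m' : ℝ) + 1) * ((N : ℝ) * δ) ^ m' *
          (∑ i, volume.real {t : ℝ | T < t ∧ t < T + H ∧ t ∈ A i} - N * δ * H) :=
        mul_nonneg (by positivity) (by linarith)
      rw [← Finset.sum_div]
      have e : (∑ t ∈ (Finset.univ : Finset (Fin (m' + 1) → Fin N)).filter
          (fun t => Function.Injective t),
          volume.real {x : ℝ | T < x ∧ x < T + H ∧ ∀ j, x ∈ A (t j)}) / H +
            ((N : ℝ) ^ (m' + 1) - N.descFactorial (m' + 1)) - ((N : ℝ) * δ) ^ (m' + 1) =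
          ((∑ t ∈ (Finset.univ : Finset (Fin (m' + 1) → Fin N)).filter
            (fun t => Function.Injective t),
            volume.real {x : ℝ | T < x ∧ x < T + H ∧ ∀ j, x ∈ A (t j)}) +
            ((N : ℝ) ^ (m' + 1) - N.descFactorial (m' + 1)) * H -
              ((N : ℝ) * δ) ^ (m' + 1) * H) / H := by
        field_simp
      rw [← sub_nonneg, e]
      refine div_nonneg ?_ hH.le
      linarith)
  refine ⟨Finset.univ.image t, ?_, ?_⟩
  · rw [Finset.card_image_of_injective _ ht, Finset.card_univ, Fintype.card_fin]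
  · rw [le_div_iff₀ hH] at hres
    refine hres.trans (le_of_eq ?_)
    congr 1
    ext x
    simp only [Finset.mem_image, Finset.mem_univ, true_and, forall_exists_index,
      forall_apply_eq_imp_iff]

/-- Ramsey: hereditary version. -/
lemma hereditary (m : ℕ) (ε : ℝ) (hε : 0 < ε) (δ : ℝ) (hδ : 0 ≤ δ) : ∃ N : ℕ,
    ∀ T H : ℝ, 0 < H → ∀ A : Fin N → Set ℝ, (∀ i, MeasurableSet (A i)) →
    (∀ i, δ * H ≤ volume.real {t : ℝ | T < t ∧ t < T + H ∧ t ∈ A i}) →
    ∃ S : Finset (Fin N), S.card = m ∧ ∀ Q ⊆ S,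
      (δ ^ Q.card - ε) * H ≤ volume.real {t : ℝ | T < t ∧ t < T + H ∧ ∀ i ∈ Q, t ∈ A i} := by
  classical
  -- the size of the homogeneous set
  obtain ⟨K, hmK, hK⟩ : ∃ K : ℕ, m ≤ K ∧ ((m : ℝ)) ^ 2 / K ≤ ε := by
    refine ⟨m + ⌈((m : ℝ)) ^ 2 / ε⌉₊ + 1, by omega, ?_⟩
    have h1 : ((m : ℝ)) ^ 2 / ε ≤ ((m + ⌈((m : ℝ)) ^ 2 / ε⌉₊ + 1 : ℕ) : ℝ) := by
      refine (Nat.le_ceil _).trans ?_
      exact_mod_cast (by omega)
    rw [div_le_iff₀ (by positivity)]
    rw [div_le_iff₀ hε] at h1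
    linarith
  obtain ⟨N, hN⟩ := Pool.Agent.H507R3.RamAll.ramsey_all Bool m K
  refine ⟨N, fun T H hH A hA hAδ => ?_⟩
  -- the colouring of finite sets of natural numbers
  let good : Finset ℕ → Prop := fun Q => (δ ^ Q.card - ε) * H ≤
    volume.real {t : ℝ | T < t ∧ t < T + H ∧ ∀ i : Fin N, (i : ℕ) ∈ Q → t ∈ A i}
  obtain ⟨S, hSN, hSK, hS⟩ := hN (Finset.range N) (fun Q => decide (good Q)) (by simp)
  have hmem : ∀ i ∈ S, i < N := fun i hi => Finset.mem_range.1 (hSN hi)
  have hgood : ∀ Q ⊆ S, Q.card ≤ m → good Q := by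
    intro Q hQ hQm
    rcases Nat.eq_zero_or_pos Q.card with h0 | h0
    · have : Q = ∅ := Finset.card_eq_zero.1 h0
      subst this
      show (δ ^ (∅ : Finset ℕ).card - ε) * H ≤ _
      have e : {t : ℝ | T < t ∧ t < T + H ∧ ∀ i : Fin N, (i : ℕ) ∈ (∅ : Finset ℕ) → t ∈ A i} =
          Set.Ioo T (T + H) := by
        ext t
        simp
      rw [e]
      unfold Measure.real
      rw [Real.volume_Ioo, show T + H - T = H by ring, ENNReal.toReal_ofReal hH.le,
        Finset.card_empty, pow_zero]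
      nlinarith
    · -- Gillis inside `S`
      let emb : Fin K → Fin N := fun j => ⟨S.orderEmbOfFin hSK j, hmem _
        (Finset.orderEmbOfFin_mem S hSK j)⟩
      obtain ⟨Q', hQ'c, hQ'⟩ := gillis_sets K Q.card (hQm.trans hmK) h0 ε (by
          refine le_trans ?_ hK
          have : (Q.card : ℝ) ≤ m := by exact_mod_cast hQm
          gcongr) T H hH (fun j => A (emb j)) (fun j => hA _) δ hδ (fun j => hAδ _)
      have hinj : Function.Injective (fun j => (S.orderEmbOfFin hSK j : ℕ)) :=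
        (S.orderEmbOfFin hSK).injective
      have hg : good (Q'.image (fun j => (S.orderEmbOfFin hSK j : ℕ))) := by
        show (δ ^ (Q'.image (fun j => (S.orderEmbOfFin hSK j : ℕ))).card - ε) * H ≤ _
        rw [Finset.card_image_of_injective _ hinj, hQ'c]
        refine hQ'.trans (le_of_eq ?_)
        congr 1
        ext t
        simp only [Set.mem_ofPred_eq]
        refine and_congr_right fun _ => and_congr_right fun _ => ?_
        constructor
        · intro h i hi
          obtain ⟨j, hj, hji⟩ := Finset.mem_image.1 hi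
          have h1 := h j hj
          have : emb j = i := Fin.ext hji
          rwa [this] at h1
        · intro h j hj
          exact h (emb j) (Finset.mem_image_of_mem _ hj)
      obtain ⟨c, hc⟩ := hS Q.card hQm
      have h1 := hc Q hQ rfl
      have h2 := hc (Q'.image (fun j => (S.orderEmbOfFin hSK j : ℕ))) (by
        intro x hx
        obtain ⟨j, -, rfl⟩ := Finset.mem_image.1 hx
        exact Finset.orderEmbOfFin_mem S hSK j) (by
        rw [Finset.card_image_of_injective _ hinj, hQ'c])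
      have h3 : decide (good Q) = decide (good (Q'.image
        (fun j => (S.orderEmbOfFin hSK j : ℕ)))) := h1.trans h2.symm
      exact (decide_eq_decide.1 h3).2 hg
  -- a subset with `m` elements
  obtain ⟨S', hS'S, hS'm⟩ := Finset.exists_subset_card_eq (show m ≤ S.card by rw [hSK]; exact hmK)
  refine ⟨(Finset.univ : Finset (Fin N)).filter (fun i => (i : ℕ) ∈ S'), ?_, ?_⟩
  · rw [← hS'm]
    refine Finset.card_bij (fun i _ => (i : ℕ)) (fun i hi => (Finset.mem_filter.1 hi).2)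
      (fun i _ j _ h => Fin.ext h) (fun b hb => ?_)
    exact ⟨⟨b, hmem b (hS'S hb)⟩, Finset.mem_filter.2 ⟨Finset.mem_univ _, hb⟩, rfl⟩
  · intro Q hQ
    have hinj : Function.Injective (fun i : Fin N => (i : ℕ)) := fun i j h => Fin.ext h
    have h1 : Q.image (fun i : Fin N => (i : ℕ)) ⊆ S := by
      intro x hx
      obtain ⟨i, hi, rfl⟩ := Finset.mem_image.1 hx
      exact hS'S (Finset.mem_filter.1 (hQ hi)).2
    have h2 : (Q.image (fun i : Fin N => (i : ℕ))).card = Q.card :=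
      Finset.card_image_of_injective _ hinj
    have h3 : Q.card ≤ m := by
      rw [← h2, ← hS'm]
      refine Finset.card_le_card ?_
      intro x hx
      obtain ⟨i, hi, rfl⟩ := Finset.mem_image.1 hx
      exact (Finset.mem_filter.1 (hQ hi)).2
    have h4 := hgood _ h1 (by rw [h2]; exact h3)
    have h5 : (δ ^ (Q.image (fun i : Fin N => (i : ℕ))).card - ε) * H ≤
      volume.real {t : ℝ | T < t ∧ t < T + H ∧ ∀ i : Fin N,
        (i : ℕ) ∈ Q.image (fun i : Fin N => (i : ℕ)) → t ∈ A i} := h4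
    rw [h2] at h5
    refine h5.trans (le_of_eq ?_)
    congr 1
    ext t
    simp only [Set.mem_ofPred_eq]
    refine and_congr_right fun _ => and_congr_right fun _ => ?_
    constructor
    · intro h i hi
      exact h i (Finset.mem_image_of_mem _ hi)
    · intro h i hi
      obtain ⟨j, hj, hji⟩ := Finset.mem_image.1 hi
      have : j = i := Fin.ext hji
      exact h i (this ▸ hj) |> fun h => h

theorem result :
    -- at least `k + 1` of `m` windows
    (∀ m k : ℕ, (k : ℝ) < p * m → ∀ ε : ℝ, 0 < ε → ∃ G δ : ℝ, 0 < G ∧ 0 < δ ∧ δ < 1 ∧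
      ∀ (q : Fin m → ℕ) [∀ i, NeZero (q i)] (χ : ∀ i, DirichletCharacter ℂ (q i)),
      (∀ i, (χ i).IsPrimitive) → ∃ T₀ : ℝ, ∀ T : ℝ, T₀ ≤ T → ∀ H : ℝ, T ^ (1 - δ) ≤ H → H ≤ T →
      ∀ a : Fin m → ℝ, (∀ i, 0 ≤ a i ∧ a i ≤ T ^ (1 + δ)) →
        ((p * m - k) / (m - k) - ε) * H ≤ volume.real {t : ℝ | T < t ∧ t < T + H ∧
          k + 1 ≤ {i | Hit (DirichletCharacter.LFunction (χ i)) (win G T) (t + a i)}.ncard}) ∧
    -- `m` of `N` windows, all correlations
    (∀ m : ℕ, ∀ ε : ℝ, 0 < ε → ∃ N : ℕ, ∃ G δ : ℝ, 0 < G ∧ 0 < δ ∧ δ < 1 ∧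
      ∀ (q : Fin N → ℕ) [∀ i, NeZero (q i)] (χ : ∀ i, DirichletCharacter ℂ (q i)),
      (∀ i, (χ i).IsPrimitive) → ∃ T₀ : ℝ, ∀ T : ℝ, T₀ ≤ T → ∀ H : ℝ, T ^ (1 - δ) ≤ H → H ≤ T →
      ∀ a : Fin N → ℝ, (∀ i, 0 ≤ a i ∧ a i ≤ T ^ (1 + δ)) →
        ∃ S : Finset (Fin N), S.card = m ∧ ∀ Q ⊆ S,
          (p ^ Q.card - ε) * H ≤ volume.real {t : ℝ | T < t ∧ t < T + H ∧
            ∀ i ∈ Q, Hit (DirichletCharacter.LFunction (χ i)) (win G T) (t + a i)}) ∧
    0.672497 ≤ p := by
  classical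
  refine ⟨?_, ?_, p_num⟩
  · intro m k hk ε hε
    rw [p_eq] at hk
    obtain ⟨G, hG, d, hd0, hd1, h⟩ := Pool.Agent.TH342.CV.joint hk hε
    refine ⟨G, d, hG, hd0, hd1, fun q _ χ hχ => ?_⟩
    obtain ⟨T0, hT0, hT⟩ := h (fun i => DirichletCharacter.LFunction (χ i))
      (fun i => H370.good_dirichlet (χ i) (hχ i))
    refine ⟨T0, fun T hTT H hH hHT a ha => ?_⟩
    have key := hT T hTT H hH hHT a ha
    rw [← p_eq] at key
    have hfin : volume {t : ℝ | T < t ∧ t < T + H ∧
          k + 1 ≤ {i | Hit (DirichletCharacter.LFunction (χ i)) (win G T) (t + a i)}.ncard} ≠ ⊤ :=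
      fin_aux (T := T) (H := H) _ fun t ht => ⟨ht.1, ht.2.1⟩
    unfold Measure.real
    rw [← ENNReal.ofReal_le_iff_le_toReal hfin]
    refine key.trans (measure_mono ?_)
    rintro t ⟨⟨h1, h2⟩, h3⟩
    refine ⟨h1, h2, h3.trans ?_⟩
    refine Set.ncard_le_ncard ?_ (Set.toFinite _)
    rintro i ⟨-, -, x, h4, h5, -, h6⟩
    exact ⟨x, h4, h5, h6⟩
  · intro m ε hε
    have hp0 : (0.672497 : ℝ) ≤ p := p_num
    have hp1 := p_le
    -- continuity of the powers
    obtain ⟨ρ, hρ, hρ0, hρ'⟩ : ∃ ρ : ℝ, 0 < ρ ∧ ρ ≤ p ∧ ∀ j ≤ m, p ^ j - ε / 2 ≤ (p - ρ) ^ j := by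
      have h1 : ∀ j ∈ Finset.range (m + 1), ∀ᶠ ρ : ℝ in 𝓝[>] 0, p ^ j - ε / 2 ≤ (p - ρ) ^ j := by
        intro j _
        have hc : Tendsto (fun ρ : ℝ => (p - ρ) ^ j) (𝓝[>] 0) (𝓝 (p ^ j)) := by
          have : Continuous (fun ρ : ℝ => (p - ρ) ^ j) := by fun_prop
          have h2 := this.tendsto 0
          rw [sub_zero] at h2
          exact h2.mono_left nhdsWithin_le_nhds
        exact (hc.eventually_const_lt (show p ^ j - ε / 2 < p ^ j by linarith)).mono
          fun ρ h => h.le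
      have h2 : ∀ᶠ ρ : ℝ in 𝓝[>] 0, ∀ j ∈ Finset.range (m + 1),
          p ^ j - ε / 2 ≤ (p - ρ) ^ j := (Finset.eventually_all _).2 h1
      have h3 : ∀ᶠ ρ : ℝ in 𝓝[>] 0, ρ ≤ p :=
        (eventually_le_nhds (show (0 : ℝ) < p by norm_num at hp0; linarith)).filter_mono
          nhdsWithin_le_nhds
      have h4 : ∀ᶠ ρ : ℝ in 𝓝[>] 0, 0 < ρ := eventually_mem_nhdsWithin
      obtain ⟨ρ, g1, g2, g3⟩ := (h2.and (h3.and h4)).exists
      exact ⟨ρ, g3, g2, fun j hj => g1 j (Finset.mem_range.2 (by omega))⟩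
    obtain ⟨N, hN⟩ := hereditary m (ε / 2) (by positivity) (p - ρ) (by linarith)
    obtain ⟨G, hG, d, hd0, hd1, h⟩ := cover ρ hρ
    refine ⟨N, G, d, hG, hd0, hd1, fun q _ χ hχ => ?_⟩
    choose T1 hT1 hT using fun i => h _ (H370.good_dirichlet (χ i) (hχ i))
    obtain ⟨T₀, hT₀⟩ : ∃ T₀ : ℝ, 10 ≤ T₀ ∧ ∀ i, T1 i ≤ T₀ := by
      obtain ⟨B, hB⟩ := (Set.finite_range T1).bddAbove
      exact ⟨max 10 B, le_max_left _ _, fun i => (hB ⟨i, rfl⟩).trans (le_max_right _ _)⟩
    refine ⟨T₀, fun T hTT H hH hHT a ha => ?_⟩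
    have hT10 : 10 ≤ T := hT₀.1.trans hTT
    have hH0 : 0 < H := lt_of_lt_of_le (Real.rpow_pos_of_pos (by linarith) _) hH
    obtain ⟨S, hSm, hS⟩ := hN T H hH0
      (fun i => {t : ℝ | Hit (DirichletCharacter.LFunction (χ i)) (win G T) (t + a i)})
      (fun i => hit_meas _ _ _) (fun i => hT i T ((hT₀.2 i).trans hTT) H hH hHT (a i) (ha i).1
        (ha i).2)
    refine ⟨S, hSm, fun Q hQ => ?_⟩
    refine le_trans ?_ (hS Q hQ)
    refine mul_le_mul_of_nonneg_right ?_ hH0.le
    have h5 := hρ' Q.card ((Finset.card_le_card hQ).trans hSm.le)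
    linarith

end Pool.Agent.Results.MP_8958e8_nt.AllOrdersAtAnyShifts
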