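import Pool.Agent.V1161.CM.Pow

set_option autoImplicit false

/-!
# The pair correlation conjecture on average along real powers

No hypothesis is assumed.  For `c > 0` not an integer and `h, κ > 0`, the mean over `1 ≤ m ≤ M` of
the number of pairs of ordinates in `(0, T]` at a distance in `[h m ^ c - κ, h m ^ c + κ]` mean
spacings is `(2κ + o(1)) (T log T)/2π`, as predicted by the pair correlation conjecture, if first
`T` and then `M` tends to infinity.  The same holds for every sequence of real distances whose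
exponential sums are `o(M)`, uniformly on compact sets of positive frequencies.
-/

open Filter Topology

namespace Pool.Agent.Results.MP_8958e8_nt.RealPowerDistances

/-- the nontrivial zeros of `ζ` -/
def ZZ : Set ℂ := {s : ℂ | riemannZeta s = 0 ∧ 0 < s.re ∧ s.re < 1}

/-- multiplicity of `s` as a zero of the Riemann zeta function (order of vanishing at `s`) -/
noncomputable def zmult (s : ℂ) : ℕ := analyticOrderNatAt riemannZeta s

/-- the pairs of zeros with ordinates in `(0, T]` and normalised difference in `[α, β]` -/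
def PS (T α β : ℝ) : Set (ℂ × ℂ) := {p : ℂ × ℂ | p.1 ∈ ZZ ∧ p.2 ∈ ZZ ∧ 0 < p.1.im ∧ p.1.im ≤ T ∧
  0 < p.2.im ∧ p.2.im ≤ T ∧ α ≤ (p.1.im - p.2.im) * Real.log T / (2 * Real.pi) ∧
    (p.1.im - p.2.im) * Real.log T / (2 * Real.pi) ≤ β}

/-- `N(T; α, β)` as in the problem: the number of ordered pairs of ordinates in `(0, T]`, counted
with multiplicity, with normalised difference in `[α, β]` -/
noncomputable def N (T α β : ℝ) : ℕ := ∑ᶠ p ∈ PS T α β, zmult p.1 * zmult p.2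

/-- the exponential sums of the sequence `b` are `o(M)`, uniformly on compact sets of positive
frequencies -/
def SmallSums (b : ℕ → ℝ) : Prop := ∀ η R ε : ℝ, 0 < η → 0 < ε → ∃ M₀ : ℕ, ∀ M : ℕ, M₀ ≤ M →
  ∀ β : ℝ, η ≤ β → β ≤ R →
    ‖∑ m ∈ Finset.range M, Complex.exp (2 * Real.pi * Complex.I * ((β * b m : ℝ) : ℂ))‖ ≤ ε * M

open Pool.Agent.TH850.UV (mS)
open Pool.Agent.V11270.KC (Z0 mem_Z0)
open Pool.Agent.V1161.CM (PC dl main_avg Hexp_pow)

theorem PS_finite (T α β : ℝ) : (PS T α β).Finite := by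
  refine ((Z0 T).finite_toSet.prod (Z0 T).finite_toSet).subset ?_
  rintro ⟨s, s'⟩ ⟨⟨h1, h2, h3⟩, ⟨h4, h5, h6⟩, h7, h8, h9, h10, _, _⟩
  exact ⟨mem_Z0.2 ⟨h2, h3, h7, h8, h1⟩, mem_Z0.2 ⟨h5, h6, h9, h10, h4⟩⟩

lemma N_eq {T : ℝ} (hT : 10 ≤ T) (b κ : ℝ) : (N T (b - κ) (b + κ) : ℝ) = PC T b κ := by
  classical
  have hL : 0 < Real.log T := Real.log_pos (by linarith)
  have hpi := Real.pi_pos
  unfold N PC
  rw [finsum_mem_eq_finite_toFinset_sum _ (PS_finite T _ _)]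
  push_cast
  rw [← Finset.sum_product' (Z0 T) (Z0 T) (fun s s' => mS s * mS s' *
      (if (b - κ) * dl T ≤ s.im - s'.im ∧ s.im - s'.im ≤ (b + κ) * dl T then 1 else 0))]
  have h2 : ∀ p : ℂ × ℂ, mS p.1 * mS p.2 *
      (if (b - κ) * dl T ≤ p.1.im - p.2.im ∧ p.1.im - p.2.im ≤ (b + κ) * dl T then (1 : ℝ) else 0)
      = if (b - κ) * dl T ≤ p.1.im - p.2.im ∧ p.1.im - p.2.im ≤ (b + κ) * dl T then
        mS p.1 * mS p.2 else 0 := by
    intro p
    split_ifs <;> simp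
  simp_rw [h2]
  rw [← Finset.sum_filter]
  refine Finset.sum_congr ?_ fun p _ => rfl
  ext p
  have e1 : ∀ x y : ℝ, x ≤ y * Real.log T / (2 * Real.pi) ↔ x * dl T ≤ y := by
    intro x y
    unfold dl
    rw [le_div_iff₀ (by positivity), mul_div_assoc', div_le_iff₀ hL]
  have e2 : ∀ x y : ℝ, y * Real.log T / (2 * Real.pi) ≤ x ↔ y ≤ x * dl T := by
    intro x y
    unfold dl
    rw [div_le_iff₀ (by positivity), mul_div_assoc', le_div_iff₀ hL]
  rw [Set.Finite.mem_toFinset, Finset.mem_filter, Finset.mem_product, mem_Z0, mem_Z0]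
  constructor
  · rintro ⟨⟨h1, h3, h4⟩, ⟨h5, h6, h7⟩, h8, h9, h10, h11, h12, h13⟩
    exact ⟨⟨⟨h3, h4, h8, h9, h1⟩, ⟨h6, h7, h10, h11, h5⟩⟩, (e1 _ _).1 h12, (e2 _ _).1 h13⟩
  · rintro ⟨⟨⟨h3, h4, h8, h9, h1⟩, ⟨h6, h7, h10, h11, h5⟩⟩, h12, h13⟩
    exact ⟨⟨h1, h3, h4⟩, ⟨h5, h6, h7⟩, h8, h9, h10, h11, (e1 _ _).2 h12, (e2 _ _).2 h13⟩

/-- the theorem for sequences with small exponential sums -/
theorem general (b : ℕ → ℝ) (hb : SmallSums b) (κ : ℝ) (hκ : 0 < κ) (ε : ℝ) (hε : 0 < ε) :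
    ∃ M₀ : ℕ, ∀ M : ℕ, M₀ ≤ M → ∃ T₀ : ℝ, ∀ T : ℝ, T₀ ≤ T →
      |1 / (M : ℝ) * ∑ m ∈ Finset.range M,
        (N T (b m - κ) (b m + κ) : ℝ) / (T * Real.log T / (2 * Real.pi)) - 2 * κ| ≤ ε := by
  have hpi := Real.pi_pos
  obtain ⟨M₀, hM₀⟩ := main_avg b hb κ hκ (ε / (2 * Real.pi)) (by positivity)
  refine ⟨M₀, fun M hM => ?_⟩
  obtain ⟨T₀, hT₀⟩ := hM₀ M hM
  refine ⟨max T₀ 10, fun T hT => ?_⟩
  have hT10 : 10 ≤ T := (le_max_right _ _).trans hT
  have h1 := hT₀ T ((le_max_left _ _).trans hT)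
  have hL : 0 < Real.log T := Real.log_pos (by linarith)
  obtain ⟨X, hX⟩ : ∃ X : ℝ, X = T * Real.log T / (2 * Real.pi) := ⟨_, rfl⟩
  have hX0 : 0 < X := by rw [hX]; positivity
  rw [← hX] at h1 ⊢
  have e1 : 1 / (M : ℝ) * ∑ m ∈ Finset.range M, (N T (b m - κ) (b m + κ) : ℝ) / X - 2 * κ =
      (1 / (M : ℝ) * ∑ m ∈ Finset.range M, PC T (b m) κ - 2 * κ * X) / X := by
    rw [← Finset.sum_div, sub_div, mul_div_assoc, mul_div_assoc, div_self hX0.ne', mul_one]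
    congr 3
    exact Finset.sum_congr rfl fun m _ => N_eq hT10 _ _
  rw [e1, abs_div, abs_of_pos hX0, div_le_iff₀ hX0]
  refine h1.trans (le_of_eq ?_)
  rw [hX]
  ring

/-- **The pair correlation conjecture on average along real powers.**  No hypothesis is assumed.
(1) Let `c > 0` be a real number that is not an integer, and `h, κ > 0`.  For every `ε > 0`, all
large `M` and all `T ≥ T₀(M)`, the mean over the distances `b = h m ^ c`, `1 ≤ m ≤ M`, of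
`N(T; b - κ, b + κ) / ((T log T)/2π)` differs from `2κ` by at most `ε`.
(2) The same for every sequence of real distances with small exponential sums. -/
theorem result :
    (∀ c h κ : ℝ, 0 < c → (∀ n : ℕ, c ≠ n) → 0 < h → 0 < κ → ∀ ε : ℝ, 0 < ε →
      ∃ M₀ : ℕ, ∀ M : ℕ, M₀ ≤ M → ∃ T₀ : ℝ, ∀ T : ℝ, T₀ ≤ T →
        |1 / (M : ℝ) * ∑ m ∈ Finset.range M,
          (N T (h * ((m + 1 : ℕ) : ℝ) ^ c - κ) (h * ((m + 1 : ℕ) : ℝ) ^ c + κ) : ℝ) /
            (T * Real.log T / (2 * Real.pi)) - 2 * κ| ≤ ε) ∧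
    (∀ b : ℕ → ℝ, SmallSums b → ∀ κ : ℝ, 0 < κ → ∀ ε : ℝ, 0 < ε →
      ∃ M₀ : ℕ, ∀ M : ℕ, M₀ ≤ M → ∃ T₀ : ℝ, ∀ T : ℝ, T₀ ≤ T →
        |1 / (M : ℝ) * ∑ m ∈ Finset.range M,
          (N T (b m - κ) (b m + κ) : ℝ) / (T * Real.log T / (2 * Real.pi)) - 2 * κ| ≤ ε) :=
  ⟨fun c h κ hc hcn hh hκ ε hε =>
      general (fun m => h * ((m + 1 : ℕ) : ℝ) ^ c) (Hexp_pow c h hc hcn hh) κ hκ ε hε,
    fun b hb κ hκ ε hε => general b hb κ hκ ε hε⟩

end Pool.Agent.Results.MP_8958e8_nt.RealPowerDistances
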