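import Pool.Agent.V1161.ZW.Cont
import Pool.Agent.H295R2.SI.Fin
import Pool.Agent.H370R2.Expl1

/-!
# Correlations of the numbers of simple critical zeros in windows at many places

Unconditionally.  Let `p = 3/2 - cot(1/√2)/√2 = 0.6725…` (the Montgomery-Taylor proportion).  Let `n(L; t)` be
the number of simple zeros of `L(1/2 + i x)` in a window `(t, t + 2πℓ/log T]` of `ℓ` mean spacings, where `ℓ`
is anything between a constant and `κ log T`.  By the pair correlation conjecture and its generalisations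
the mean value of `n(L₁; t + b₁) ⋯ n(L_k; t + b_k)` over `t` should be about `ℓ^k` if `ℓ` is large.

For every `k` and `ε > 0` there is an `M` such that among any `M` places, that is primitive Dirichlet
L-functions `L_i` (for instance the Riemann zeta function) with arbitrary shifts `b_i ≤ T^(1+δ)`, there are always
`k` places for which this mean value is at least `(p^k - ε) ℓ^k`.  For `k = 2`: among any `M` shifts of
the zeros of zeta there are two for which the mean value of the product is at least `0.45 ℓ²`; for two given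
places the known bound is `(2p - 1 - ε) ℓ²` with `2p - 1 = 0.345`, and for `k ≥ 4` given places the bound
`1 - k (1 - p)` obtained in this way is negative.

Proof.  The numbers of the simple critical zeros in windows, truncated at `(1 + ε) ℓ`, have average at least
`(p - ε) ℓ`, at every place and uniformly in the length (`Pool.Agent.V1161.ZW.coreU`).  By the inequality of power means
the average of the `k`-th power of their sum over `M` places is at least `((p - ε) ℓ M)^k`, and the terms of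
the expansion with two equal places contribute `O(M^(k-1) ℓ^k)`.
-/

open Filter Topology Complex

namespace Pool.Agent.Results.MP_8958e8_nt.ReturnPatterns

/-- the Montgomery-Taylor proportion `2 - c_MT⁻¹ = 3/2 - cot(1/√2)/√2 = 0.6725…` -/
noncomputable def p : ℝ := 3 / 2 - Real.cot (1 / Real.sqrt 2) / Real.sqrt 2

/-- `1/2 + i x` is a simple zero of `F` -/
def Simple (F : ℂ → ℂ) (x : ℝ) : Prop :=
  F (1 / 2 + x * I) = 0 ∧ analyticOrderNatAt F (1 / 2 + x * I) = 1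

/-- the number of the `x ∈ (t, t + 2πℓ / log T]` such that `1/2 + i x` is a simple zero of `F`: the number of
simple zeros on the critical line in a window of `ℓ` mean spacings `2π / log T` -/
noncomputable def n (F : ℂ → ℂ) (T ℓ t : ℝ) : ℕ :=
  {x : ℝ | t < x ∧ x ≤ t + ℓ * (2 * Real.pi / Real.log T) ∧ Simple F x}.ncard

/-- modulus `1`: the Riemann zeta function -/
theorem zeta_case (χ : DirichletCharacter ℂ 1) :
    χ.IsPrimitive ∧ DirichletCharacter.LFunction χ = riemannZeta := by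
  refine ⟨?_, DirichletCharacter.LFunction_modOne_eq⟩
  rw [DirichletCharacter.level_one' χ rfl]
  exact DirichletCharacter.isPrimitive_one_level_one

/-- the sets of zeros which are counted are finite -/
theorem n_finite {q : ℕ} [NeZero q] (χ : DirichletCharacter ℂ q) (hχ : χ.IsPrimitive) (t v : ℝ)
    (ht : 0 < t) : {x : ℝ | t < x ∧ x ≤ v ∧ Simple (DirichletCharacter.LFunction χ) x}.Finite := by
  have hinj : Function.Injective fun x : ℝ => (1 / 2 + x * I : ℂ) := by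
    intro a b hab
    have := congrArg Complex.im hab
    simpa using this
  refine Set.Finite.of_finite_image ((H370.zset_finite' (H370.good_dirichlet χ hχ) t v ht).subset ?_)
    hinj.injOn
  rintro s ⟨x, ⟨h1, h2, h3, -⟩, rfl⟩
  simp only [H370.zset, Set.mem_ofPred_eq]
  refine ⟨?_, ?_, ?_, ?_, h3⟩ <;> simp <;> first | assumption | norm_num

lemma p_eq : p = 2 - H370.cMTinv := by
  unfold p H370.cMTinv
  ring

lemma p_num : 0.672497 ≤ p := by
  rw [p_eq]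
  have := H370.Expl.cMTinv_num
  norm_num at this ⊢
  linarith

theorem result :
    -- any `k`, any primitive Dirichlet L-functions
    (∀ (k : ℕ) (ε : ℝ), 0 < ε → ∃ M : ℕ, ∃ ℓ₀ κ δ : ℝ, 0 < ℓ₀ ∧ 0 < κ ∧ 0 < δ ∧ δ < 1 ∧
      ∀ (r : ℕ) (q : Fin r → ℕ) [∀ i, NeZero (q i)] (χ : ∀ i, DirichletCharacter ℂ (q i)),
        (∀ i, (χ i).IsPrimitive) → ∃ T₀ : ℝ, 10 ≤ T₀ ∧ ∀ T : ℝ, T₀ ≤ T →
      ∀ ℓ : ℝ, ℓ₀ ≤ ℓ → ℓ ≤ κ * Real.log T → ∀ H : ℝ, T ^ (1 - δ) ≤ H → H ≤ T →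
      ∀ m : ℕ, M ≤ m → ∀ (c : Fin m → Fin r) (b : Fin m → ℝ), (∀ i, 0 ≤ b i ∧ b i ≤ T ^ (1 + δ)) →
      ∃ a : Fin k → Fin m, Function.Injective a ∧
        (p ^ k - ε) * (ℓ ^ k * H) ≤
          ∫ t in T..(T + H), ∏ i, (n (DirichletCharacter.LFunction (χ (c (a i)))) T ℓ (t + b (a i)) : ℝ)) ∧
    0.672497 ≤ p ∧
    -- zeta, two places
    (∃ M : ℕ, ∃ ℓ₀ κ δ T₀ : ℝ, 0 < ℓ₀ ∧ 0 < κ ∧ 0 < δ ∧ δ < 1 ∧ 10 ≤ T₀ ∧ ∀ T : ℝ, T₀ ≤ T →
      ∀ ℓ : ℝ, ℓ₀ ≤ ℓ → ℓ ≤ κ * Real.log T → ∀ H : ℝ, T ^ (1 - δ) ≤ H → H ≤ T →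
      ∀ b : Fin M → ℝ, (∀ i, 0 ≤ b i ∧ b i ≤ T ^ (1 + δ)) →
      ∃ i j : Fin M, i < j ∧ 9 / 20 * (ℓ ^ 2 * H) ≤
        ∫ t in T..(T + H), (n riemannZeta T ℓ (t + b i) : ℝ) * (n riemannZeta T ℓ (t + b j) : ℝ)) := by
  have hp := p_num
  have hcont : ∀ (k : ℕ) (ε : ℝ), 0 < ε → ∃ M : ℕ, ∃ ℓ₀ κ δ : ℝ, 0 < ℓ₀ ∧ 0 < κ ∧ 0 < δ ∧ δ < 1 ∧
      ∀ (r : ℕ) (q : Fin r → ℕ) [∀ i, NeZero (q i)] (χ : ∀ i, DirichletCharacter ℂ (q i)),
        (∀ i, (χ i).IsPrimitive) → ∃ T₀ : ℝ, 10 ≤ T₀ ∧ ∀ T : ℝ, T₀ ≤ T →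
      ∀ ℓ : ℝ, ℓ₀ ≤ ℓ → ℓ ≤ κ * Real.log T → ∀ H : ℝ, T ^ (1 - δ) ≤ H → H ≤ T →
      ∀ m : ℕ, M ≤ m → ∀ (c : Fin m → Fin r) (b : Fin m → ℝ), (∀ i, 0 ≤ b i ∧ b i ≤ T ^ (1 + δ)) →
      ∃ a : Fin k → Fin m, Function.Injective a ∧
        (p ^ k - ε) * (ℓ ^ k * H) ≤
          ∫ t in T..(T + H), ∏ i,
            (n (DirichletCharacter.LFunction (χ (c (a i)))) T ℓ (t + b (a i)) : ℝ) := by
    intro k ε hε
    obtain ⟨M, ℓ₀, κ, δ, h1, h2, h3, h4, h5⟩ := Pool.Agent.V1161.ZW.cont k hε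
    refine ⟨M, ℓ₀, κ, δ, h1, h2, h3, h4, fun r q _ χ hχ => ?_⟩
    obtain ⟨T₀, hT₀, h6⟩ := h5 r (fun i => DirichletCharacter.LFunction (χ i))
      (fun i => H370.good_dirichlet (χ i) (hχ i))
    refine ⟨T₀, hT₀, fun T hT ℓ hℓ1 hℓ2 H hH1 hH2 m hm c b hb => ?_⟩
    obtain ⟨a, ha, h7⟩ := h6 T hT ℓ hℓ1 hℓ2 H hH1 hH2 m hm c b hb
    refine ⟨a, ha, ?_⟩
    rw [p_eq]
    exact h7
  refine ⟨hcont, hp, ?_⟩
  obtain ⟨M, ℓ₀, κ, δ, h1, h2, h3, h4, h5⟩ := hcont 2 (1 / 1000) (by norm_num)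
  obtain ⟨T₀, hT₀, h6⟩ := h5 1 (fun _ => 1) (fun _ => 1) (fun _ => (zeta_case _).1)
  refine ⟨M, ℓ₀, κ, δ, T₀, h1, h2, h3, h4, hT₀, fun T hT ℓ hℓ1 hℓ2 H hH1 hH2 b hb => ?_⟩
  obtain ⟨a, ha, h7⟩ := h6 T hT ℓ hℓ1 hℓ2 H hH1 hH2 M le_rfl (fun _ => 0) b hb
  simp only [Fin.prod_univ_two, (zeta_case _).2] at h7
  have hT0 : (0 : ℝ) < T := by linarith
  have hH0 : 0 ≤ ℓ ^ 2 * H := mul_nonneg (by positivity)
    ((Real.rpow_nonneg hT0.le _).trans hH1)
  have hc : 9 / 20 * (ℓ ^ 2 * H) ≤ (p ^ 2 - 1 / 1000) * (ℓ ^ 2 * H) := by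
    apply mul_le_mul_of_nonneg_right _ hH0
    have : (0.672497 : ℝ) ^ 2 ≤ p ^ 2 := pow_le_pow_left₀ (by norm_num) hp 2
    norm_num at this ⊢
    linarith
  have hne : a 0 ≠ a 1 := fun h => by simpa using ha h
  rcases lt_or_gt_of_ne hne with h | h
  · exact ⟨a 0, a 1, h, hc.trans h7⟩
  · refine ⟨a 1, a 0, h, (hc.trans h7).trans (le_of_eq ?_)⟩
    exact intervalIntegral.integral_congr fun t _ => mul_comm _ _

end Pool.Agent.Results.MP_8958e8_nt.ReturnPatterns
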